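import Mathlib

/-!
# Directed paths and path-mergeable digraphs

Order-preserving merging of two internally disjoint paths in a path-mergeable digraph.
-/

namespace Run7.h514

open List Relation

variable {V : Type*}

/-- `l` is the vertex sequence of a directed path of `D` that starts at `x` and ends at `y`:
consecutive vertices are joined by arcs, no vertex is repeated, the first vertex is `x` and the
last one is `y`. -/
def IsPath (D : Digraph V) (x y : V) (l : List V) : Prop :=
  l.IsChain D.Adj ∧ l.Nodup ∧ l.head? = some x ∧ l.getLast? = some y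

/-- `D` is path-mergeable: for all distinct `x`, `y` and all internally disjoint `(x,y)`-paths
`p`, `q` there is an `(x,y)`-path whose vertex set is the union of those of `p` and `q`. -/
def PathMergeable (D : Digraph V) : Prop :=
  ∀ x y : V, x ≠ y → ∀ p q : List V, IsPath D x y p → IsPath D x y q →
    (∀ v, v ∈ p → v ∈ q → v = x ∨ v = y) →
    ∃ r : List V, IsPath D x y r ∧ ∀ v, v ∈ r ↔ v ∈ p ∨ v ∈ q

theorem IsPath.decomp {D : Digraph V} {x y : V} (hxy : x ≠ y) {l : List V}
    (h : IsPath D x y l) : ∃ m : List V, l = x :: (m ++ [y]) := by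
  obtain ⟨-, -, h1, h2⟩ := h
  cases l with
  | nil => simp at h1
  | cons a t =>
    simp only [List.head?_cons, Option.some.injEq] at h1
    subst h1
    rcases List.eq_nil_or_concat t with rfl | ⟨m, b, rfl⟩
    · simp at h2; exact absurd h2 hxy
    · refine ⟨m, ?_⟩
      have : (a :: m.concat b).getLast? = some b := by
        rw [List.concat_eq_append]
        exact List.getLast?_concat (l := a :: m)
      rw [h2] at this
      simp only [Option.some.injEq] at this
      subst this
      simp

theorem isPath_of_chain {D : Digraph V} {x y : V} {m : List V}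
    (hc : (x :: (m ++ [y])).IsChain D.Adj) (hn : (x :: y :: m).Nodup) :
    IsPath D x y (x :: (m ++ [y])) := by
  refine ⟨hc, ?_, by simp, ?_⟩
  · have hp : (x :: (m ++ [y])).Perm (x :: y :: m) := by
      refine List.Perm.cons _ ?_
      exact List.perm_append_singleton y m
    exact hp.nodup_iff.mpr hn
  · exact List.getLast?_concat (l := x :: m)

/-- A list all of whose members lie in `P` or in `Q`, and which has a member in each, has two
consecutive members, one in each. -/
theorem exists_switch {P Q : V → Prop} : ∀ l : List V, (∀ v ∈ l, P v ∨ Q v) →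
    (∃ v ∈ l, P v) → (∃ v ∈ l, Q v) → (∀ v, P v → ¬ Q v) →
    ∃ l₁ a b l₂, l = l₁ ++ a :: b :: l₂ ∧ ((P a ∧ Q b) ∨ (Q a ∧ P b))
  | [], _, h, _, _ => by obtain ⟨v, hv, _⟩ := h; simp at hv
  | [a], _, h1, h2, h3 => by
    obtain ⟨v, hv, hp⟩ := h1; obtain ⟨w, hw, hq⟩ := h2
    simp only [List.mem_singleton] at hv hw
    subst hv; subst hw; exact absurd hq (h3 _ hp)
  | a :: b :: t, h0, h1, h2, h3 => by
    by_cases hab : (P a ∧ Q b) ∨ (Q a ∧ P b)
    · exact ⟨[], a, b, t, rfl, hab⟩
    · have ha := h0 a (by simp)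
      have hb := h0 b (by simp)
      have h1' : ∃ v ∈ b :: t, P v := by
        obtain ⟨v, hv, hp⟩ := h1
        rcases List.mem_cons.mp hv with rfl | hv
        · refine ⟨b, by simp, ?_⟩
          rcases hb with hb | hb
          · exact hb
          · exact absurd (Or.inl ⟨hp, hb⟩) hab
        · exact ⟨v, hv, hp⟩
      have h2' : ∃ v ∈ b :: t, Q v := by
        obtain ⟨v, hv, hp⟩ := h2
        rcases List.mem_cons.mp hv with rfl | hv
        · refine ⟨b, by simp, ?_⟩
          rcases hb with hb | hb
          · exact absurd (Or.inr ⟨hp, hb⟩) hab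
          · exact hb
        · exact ⟨v, hv, hp⟩
      obtain ⟨l₁, c, d, l₂, e, h⟩ := exists_switch (b :: t)
        (fun v hv => h0 v (List.mem_cons_of_mem _ hv)) h1' h2' h3
      exact ⟨a :: l₁, c, d, l₂, by rw [e]; simp, h⟩

theorem head?_append_singleton (L₁ L₂ : List V) (a : V) :
    (L₁ ++ [a]).head? = (L₁ ++ a :: L₂).head? := by
  cases L₁ <;> simp

/-- The criterion of Bang-Jensen (necessity): for internally disjoint `(u,v)`-paths with non-empty
interiors `X`, `Y`, some vertex of `X` dominates the first vertex of `Y` or conversely. -/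
theorem PathMergeable.crit {D : Digraph V} (hD : PathMergeable D) :
    ∀ (n : ℕ) (u v : V) (X Y : List V), X.length + Y.length = n → X ≠ [] → Y ≠ [] →
      (u :: (X ++ [v])).IsChain D.Adj → (u :: (Y ++ [v])).IsChain D.Adj →
      (u :: v :: (X ++ Y)).Nodup →
      (∃ a ∈ X, ∃ y ∈ Y.head?, D.Adj a y) ∨ (∃ b ∈ Y, ∃ x ∈ X.head?, D.Adj b x) := by
  intro n
  induction n using Nat.strong_induction_on with
  | _ n ih =>
  intro u v X Y hn hX hY cX cY hnd
  have huv : u ≠ v := by
    intro h; subst h; simp at hnd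
  have ndX : (u :: v :: X).Nodup := hnd.sublist (by simp)
  have ndY : (u :: v :: Y).Nodup := hnd.sublist (by simp)
  have hdisj : ∀ w, w ∈ X → ¬ w ∈ Y := by
    intro w h1 h2
    have := (List.nodup_cons.mp (List.nodup_cons.mp hnd).2).2
    exact (List.nodup_append.mp this).2.2 w h1 w h2 rfl
  obtain ⟨r, hr, hrv⟩ := hD u v huv _ _ (isPath_of_chain cX ndX) (isPath_of_chain cY ndY) (by
    intro w h1 h2
    simp only [List.mem_cons, List.mem_append, List.mem_nil_iff, or_false] at h1 h2
    by_contra hcon
    push Not at hcon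
    have a1 : w ∈ X := by tauto
    have a2 : w ∈ Y := by tauto
    exact hdisj w a1 a2)
  obtain ⟨m, rfl⟩ := hr.decomp huv
  have hmem : ∀ w, w ∈ m ↔ w ∈ X ∨ w ∈ Y := by
    intro w
    have h := hrv w
    simp only [List.mem_cons, List.mem_append, List.mem_nil_iff, or_false] at h
    have hn1 : (u :: (m ++ [v])).Nodup := hr.2.1
    have hu : w ∈ m → w ≠ u ∧ w ≠ v := by
      intro hw
      constructor
      · rintro rfl
        exact (List.nodup_cons.mp hn1).1 (by simp [hw])
      · rintro rfl
        have := (List.nodup_append.mp (List.nodup_cons.mp hn1).2).2.2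
        exact this w hw w (by simp) rfl
    have hu2 : (w ∈ X ∨ w ∈ Y) → w ≠ u ∧ w ≠ v := by
      intro hw
      constructor
      · rintro rfl
        exact (List.nodup_cons.mp hnd).1 (by simp [hw])
      · rintro rfl
        exact (List.nodup_cons.mp (List.nodup_cons.mp hnd).2).1 (by simp [hw])
    constructor
    · intro hw
      obtain ⟨e1, e2⟩ := hu hw
      tauto
    · intro hw
      obtain ⟨e1, e2⟩ := hu2 hw
      tauto
  obtain ⟨x0, hx0⟩ := List.exists_mem_of_ne_nil X hX
  obtain ⟨y0, hy0⟩ := List.exists_mem_of_ne_nil Y hY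
  obtain ⟨l₁, a, b, l₂, hm, hab⟩ := exists_switch (P := (· ∈ X)) (Q := (· ∈ Y)) m
    (fun w hw => (hmem w).mp hw) ⟨x0, (hmem _).mpr (Or.inl hx0), hx0⟩
    ⟨y0, (hmem _).mpr (Or.inr hy0), hy0⟩ hdisj
  have hadj : D.Adj a b := by
    have h := hr.1
    rw [hm] at h
    have e : u :: ((l₁ ++ a :: b :: l₂) ++ [v]) = (u :: l₁) ++ a :: b :: (l₂ ++ [v]) := by simp
    rw [e] at h
    exact (List.isChain_append_cons_cons.mp h).2.1
  -- a general step
  have step : ∀ (P Q : List V), P.length + Q.length = n → 
      (u :: (P ++ [v])).IsChain D.Adj → (u :: (Q ++ [v])).IsChain D.Adj →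
      (u :: v :: (P ++ Q)).Nodup → a ∈ P → b ∈ Q →
      (∃ a ∈ P, ∃ y ∈ Q.head?, D.Adj a y) ∨ (∃ b ∈ Q, ∃ x ∈ P.head?, D.Adj b x) := by
    intro P Q hPQ cP cQ hPn haP hbQ
    obtain ⟨P₁, P₂, rfl⟩ := List.append_of_mem haP
    obtain ⟨Q₁, Q₂, rfl⟩ := List.append_of_mem hbQ
    by_cases hQ1 : Q₁ = []
    · subst hQ1
      left
      exact ⟨a, by simp, b, by simp, hadj⟩
    · have c1 : (u :: ((P₁ ++ [a]) ++ [b])).IsChain D.Adj := by
        have e : u :: ((P₁ ++ a :: P₂) ++ [v]) = (u :: P₁) ++ a :: (P₂ ++ [v]) := by simp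
        rw [e, List.isChain_split] at cP
        have e2 : u :: ((P₁ ++ [a]) ++ [b]) = (u :: P₁) ++ a :: [b] := by simp
        rw [e2, List.isChain_split]
        exact ⟨cP.1, by simpa using hadj⟩
      have c2 : (u :: (Q₁ ++ [b])).IsChain D.Adj := by
        have e : u :: ((Q₁ ++ b :: Q₂) ++ [v]) = (u :: Q₁) ++ b :: (Q₂ ++ [v]) := by simp
        rw [e, List.isChain_split] at cQ
        simpa using cQ.1
      have hnd' : (u :: b :: ((P₁ ++ [a]) ++ Q₁)).Nodup := by
        have h1 : (u :: ((P₁ ++ [a]) ++ Q₁ ++ [b])).Nodup := by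
          have h2 : (u :: (P₁ ++ a :: P₂ ++ (Q₁ ++ b :: Q₂))).Nodup :=
            hPn.sublist (by simp)
          refine h2.sublist ?_
          refine List.Sublist.cons_cons _ ?_
          have : (P₁ ++ [a]) ++ Q₁ ++ [b] = (P₁ ++ [a]) ++ (Q₁ ++ [b]) := by simp
          rw [this]
          refine List.Sublist.append ?_ ?_
          · exact List.Sublist.append (List.Sublist.refl _) (by simp)
          · exact List.Sublist.append (List.Sublist.refl _) (by simp)
        have hp : (u :: ((P₁ ++ [a]) ++ Q₁ ++ [b])).Perm (u :: b :: ((P₁ ++ [a]) ++ Q₁)) :=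
          List.Perm.cons _ (List.perm_append_singleton b _)
        exact hp.nodup_iff.mp h1
      have hlt : (P₁ ++ [a]).length + Q₁.length < n := by
        simp only [List.length_append, List.length_cons, List.length_nil] at hPQ ⊢
        omega
      have := ih _ hlt u b (P₁ ++ [a]) Q₁ rfl (by simp) hQ1 c1 c2 hnd'
      rcases this with ⟨a', ha', y, hy, hay⟩ | ⟨b', hb', x, hx, hbx⟩
      · left
        refine ⟨a', ?_, y, ?_, hay⟩
        · simp only [List.mem_append, List.mem_cons] at ha' ⊢; tauto
        · cases Q₁ with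
          | nil => exact absurd rfl hQ1
          | cons q t => simpa using hy
      · right
        refine ⟨b', ?_, x, ?_, hbx⟩
        · simp only [List.mem_append]; left; exact hb'
        · rw [head?_append_singleton P₁ P₂ a] at hx; exact hx
  rcases hab with ⟨h1, h2⟩ | ⟨h1, h2⟩
  · exact step X Y hn cX cY hnd h1 h2
  · have hnd2 : (u :: v :: (Y ++ X)).Nodup := by
      have hp : (u :: v :: (Y ++ X)).Perm (u :: v :: (X ++ Y)) :=
        List.Perm.cons _ (List.Perm.cons _ List.perm_append_comm)
      exact hp.nodup_iff.mpr hnd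
    exact (step Y X (by omega) cY cX hnd2 h1 h2).symm

/-- Order-preserving merging. -/
theorem PathMergeable.merge {D : Digraph V} (hD : PathMergeable D) :
    ∀ (n : ℕ) (u v : V) (X Y : List V), X.length + Y.length = n →
      (u :: (X ++ [v])).IsChain D.Adj → (u :: (Y ++ [v])).IsChain D.Adj →
      (u :: v :: (X ++ Y)).Nodup →
      ∃ M : List V, (u :: (M ++ [v])).IsChain D.Adj ∧ M.Perm (X ++ Y) ∧ X.Sublist M ∧
        Y.Sublist M := by
  intro n
  induction n using Nat.strong_induction_on with
  | _ n ih =>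
  intro u v X Y hn cX cY hnd
  by_cases hX : X = []
  · subst hX; exact ⟨Y, cY, by simp, by simp, List.Sublist.refl _⟩
  by_cases hY : Y = []
  · subst hY; exact ⟨X, cX, by simp, List.Sublist.refl _, by simp⟩
  have step : ∀ (P Q : List V), P.length + Q.length = n → 
      (u :: (P ++ [v])).IsChain D.Adj → (u :: (Q ++ [v])).IsChain D.Adj →
      (u :: v :: (P ++ Q)).Nodup → (∃ a ∈ P, ∃ y ∈ Q.head?, D.Adj a y) → 
      ∃ M : List V, (u :: (M ++ [v])).IsChain D.Adj ∧ M.Perm (P ++ Q) ∧ P.Sublist M ∧
        Q.Sublist M := by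
    intro P Q hPQ cP cQ hPn ⟨a, haP, y, hy, hay⟩
    obtain ⟨P₁, P₂, rfl⟩ := List.append_of_mem haP
    have c1 : (u :: (P₁ ++ [a])).IsChain D.Adj ∧ (a :: (P₂ ++ [v])).IsChain D.Adj := by
      have e : u :: ((P₁ ++ a :: P₂) ++ [v]) = (u :: P₁) ++ a :: (P₂ ++ [v]) := by simp
      rw [e, List.isChain_split] at cP
      simpa using cP
    have c2 : (a :: (Q ++ [v])).IsChain D.Adj := by
      cases Q with
      | nil => simp at hy
      | cons q t =>
        simp only [List.head?_cons, Option.mem_def, Option.some.injEq] at hy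
        subst hy
        simp only [List.cons_append, List.isChain_cons_cons] at cQ ⊢
        exact ⟨hay, cQ.2⟩
    have hnd' : (a :: v :: (P₂ ++ Q)).Nodup := by
      have h2 : (v :: (a :: P₂ ++ Q)).Nodup := by
        refine hPn.sublist ?_
        refine List.Sublist.cons _ (List.Sublist.cons_cons _ ?_)
        rw [List.append_assoc]
        simp
      have hp : (v :: (a :: P₂ ++ Q)).Perm (a :: v :: (P₂ ++ Q)) := by
        rw [List.cons_append]; exact List.Perm.swap _ _ _
      exact hp.nodup_iff.mp h2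
    have hlt : P₂.length + Q.length < n := by
      simp only [List.length_append, List.length_cons] at hPQ
      omega
    obtain ⟨M', m1, m2, m3, m4⟩ := ih _ hlt a v P₂ Q rfl c1.2 c2 hnd'
    refine ⟨P₁ ++ a :: M', ?_, ?_, ?_, ?_⟩
    · have e : u :: ((P₁ ++ a :: M') ++ [v]) = (u :: P₁) ++ a :: (M' ++ [v]) := by simp
      rw [e, List.isChain_split]
      exact ⟨by simpa using c1.1, m1⟩
    · rw [List.append_assoc]
      refine List.Perm.append_left _ ?_
      rw [List.cons_append]
      exact List.Perm.cons _ m2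
    · exact List.Sublist.append (List.Sublist.refl _) (List.Sublist.cons_cons _ m3)
    · exact m4.trans (by simp)
  rcases hD.crit n u v X Y hn hX hY cX cY hnd with h | h
  · exact step X Y hn cX cY hnd h
  · have hnd2 : (u :: v :: (Y ++ X)).Nodup := by
      have hp : (u :: v :: (Y ++ X)).Perm (u :: v :: (X ++ Y)) :=
        List.Perm.cons _ (List.Perm.cons _ List.perm_append_comm)
      exact hp.nodup_iff.mpr hnd
    obtain ⟨M, m1, m2, m3, m4⟩ := step Y X (by omega) cY cX hnd2 h
    exact ⟨M, m1, m2.trans List.perm_append_comm, m4, m3⟩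

end Run7.h514
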