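import Mathlib
import Pool.Agent.Run7.h514.Paths

/-!
# Acyclic spanning subdigraphs with one source and one sink

In a path-mergeable digraph such a subdigraph exists exactly when there is a hamiltonian path from
the source to the sink.
-/

namespace Run7.h514

open List Relation

variable {V : Type*}

/-- `H` has no directed cycle. -/
def Acyclic (H : Digraph V) : Prop := ∀ v : V, ¬ TransGen H.Adj v v

/-- `x` is the only vertex of `H` without in-neighbours. -/
def OnlySource (H : Digraph V) (x : V) : Prop := ∀ v : V, (∀ u : V, ¬ H.Adj u v) ↔ v = x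

/-- `y` is the only vertex of `H` without out-neighbours. -/
def OnlySink (H : Digraph V) (y : V) : Prop := ∀ v : V, (∀ u : V, ¬ H.Adj v u) ↔ v = y

/-- `H` is a spanning subdigraph of `D` that is acyclic, with `x` as its only source and `y` as
its only sink. -/
structure Bipolar (D H : Digraph V) (x y : V) : Prop where
  le : H ≤ D
  acyclic : Acyclic H
  source : OnlySource H x
  sink : OnlySink H y

section Order

theorem rel_of_consecutive {r : V → V → Prop} {l : List V} (h : l.IsChain r) {u v : V}
    (huv : [u, v] <:+: l) : r u v := by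
  obtain ⟨s, t, rfl⟩ := huv
  have e : s ++ [u, v] ++ t = s ++ u :: v :: t := by simp
  rw [e] at h
  exact (List.isChain_append_cons_cons.mp h).2.1

theorem trans_chain {r : V → V → Prop} {a b : V} (h : TransGen r a b) :
    ∃ l : List V, (a :: (l ++ [b])).IsChain r := by
  induction h with
  | single h => exact ⟨[], by simpa using h⟩
  | @tail b c _ hbc ih =>
    obtain ⟨l, hl⟩ := ih
    refine ⟨l ++ [b], ?_⟩
    have e : a :: ((l ++ [b]) ++ [c]) = (a :: l) ++ b :: [c] := by simp
    rw [e, List.isChain_split]
    exact ⟨by simpa using hl, by simpa using hbc⟩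

theorem chain_pairwise {r : V → V → Prop} {l : List V} (h : l.IsChain r) :
    l.Pairwise (TransGen r) := by
  have h1 : l.IsChain (TransGen r) := h.imp (fun _ _ => TransGen.single)
  exact List.isChain_iff_pairwise.mp h1

theorem pairwise_nodup {r : V → V → Prop} (hr : ∀ v, ¬ r v v) {l : List V}
    (h : l.Pairwise r) : l.Nodup := by
  refine h.imp ?_
  rintro a b hab rfl
  exact hr _ hab

theorem pairwise_cases {r : V → V → Prop} : ∀ {l : List V}, l.Pairwise r → ∀ {a b : V},
    a ∈ l → b ∈ l → a ≠ b → ([a, b].Sublist l ∧ r a b) ∨ ([b, a].Sublist l ∧ r b a)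
  | [], _, a, b, ha, _, _ => by simp at ha
  | c :: t, h, a, b, ha, hb, hab => by
    rw [List.pairwise_cons] at h
    rcases List.mem_cons.mp ha with h1 | h1
    · rcases List.mem_cons.mp hb with h2 | h2
      · exact absurd (h1.trans h2.symm) hab
      · left
        subst h1
        exact ⟨List.Sublist.cons_cons _ (List.singleton_sublist.mpr h2), h.1 _ h2⟩
    · rcases List.mem_cons.mp hb with h2 | h2
      · right
        subst h2
        exact ⟨List.Sublist.cons_cons _ (List.singleton_sublist.mpr h1), h.1 _ h1⟩
      · rcases pairwise_cases h.2 h1 h2 hab with h' | h'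
        · left; exact ⟨h'.1.trans (by simp), h'.2⟩
        · right; exact ⟨h'.1.trans (by simp), h'.2⟩

theorem idx_lt [DecidableEq V] : ∀ {l : List V}, l.Nodup → ∀ {a b : V}, [a, b].Sublist l →
    l.idxOf a < l.idxOf b
  | [], _, a, b, h => by simp at h
  | c :: t, hn, a, b, h => by
    rw [List.nodup_cons] at hn
    rcases List.sublist_cons_iff.mp h with h | ⟨r, hr, h⟩
    · have hb : b ∈ t := h.subset (by simp)
      have ha : a ∈ t := h.subset (by simp)
      have hca : c ≠ a := by rintro rfl; exact hn.1 ha
      have hcb : c ≠ b := by rintro rfl; exact hn.1 hb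
      rw [List.idxOf_cons_ne _ hca, List.idxOf_cons_ne _ hcb]
      have := idx_lt hn.2 h
      omega
    · simp only [List.cons.injEq] at hr
      obtain ⟨rfl, rfl⟩ := hr
      have hb : b ∈ t := h.subset (by simp)
      have hcb : a ≠ b := by rintro rfl; exact hn.1 hb
      rw [List.idxOf_cons_self, List.idxOf_cons_ne _ hcb]
      omega

end Order

section Step

variable {D H : Digraph V} {x y : V}

/-- The order `u` precedes `v`: there is a directed path from `u` to `v` in `H`. -/
abbrev lt (H : Digraph V) (u v : V) : Prop := TransGen H.Adj u v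

theorem Bipolar.source_lt [Finite V] (h : Bipolar D H x y) {v : V} (hv : v ≠ x) : lt H x v := by
  have hwf : WellFounded (TransGen H.Adj) := by
    have : IsTrans V (TransGen H.Adj) := ⟨fun _ _ _ => TransGen.trans⟩
    have : Std.Irrefl (TransGen H.Adj) := ⟨h.acyclic⟩
    exact Finite.wellFounded_of_trans_of_irrefl _
  induction v using hwf.induction with
  | _ v ih =>
    have h1 : ¬ ∀ u : V, ¬ H.Adj u v := fun hh => hv ((h.source v).mp hh)
    push Not at h1
    obtain ⟨u, hu⟩ := h1
    by_cases hux : u = x
    · subst hux; exact TransGen.single hu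
    · exact (ih u (TransGen.single hu) hux).tail hu

theorem Bipolar.lt_sink [Finite V] (h : Bipolar D H x y) {v : V} (hv : v ≠ y) : lt H v y := by
  have hwf : WellFounded (fun a b => TransGen H.Adj b a) := by
    have : IsTrans V (fun a b => TransGen H.Adj b a) := ⟨fun _ _ _ h1 h2 => h2.trans h1⟩
    have : Std.Irrefl (fun a b => TransGen H.Adj b a) := ⟨h.acyclic⟩
    exact Finite.wellFounded_of_trans_of_irrefl _
  induction v using hwf.induction with
  | _ v ih =>
    have h1 : ¬ ∀ u : V, ¬ H.Adj v u := fun hh => hv ((h.sink v).mp hh)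
    push Not at h1
    obtain ⟨u, hu⟩ := h1
    by_cases hux : u = y
    · subst hux; exact TransGen.single hu
    · exact (ih u (TransGen.single hu) hux).head hu

/-- Elements that are equal or comparable in the order of `H`. -/
def Comp (H : Digraph V) (u v : V) : Prop := u = v ∨ lt H u v ∨ lt H v u

/-- If two vertices are incomparable, there are `a`, `b` and incomparable `p`, `q` between them
such that no vertex strictly between `a` and `b` is comparable with both, and any two vertices
below a common vertex of the open interval are comparable. -/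
theorem exists_diamond [Finite V] (hac : Acyclic H) (h : Bipolar D H x y) {p₀ q₀ : V}
    (hpq : ¬ Comp H p₀ q₀) :
    ∃ a b p q, lt H a p ∧ lt H a q ∧ lt H p b ∧ lt H q b ∧ ¬ Comp H p q ∧
      (∀ p' q' z, lt H a z → lt H z p' → lt H z q' → Comp H p' q') ∧
      (∀ p' q' z, lt H z b → lt H a p' → lt H a q' → lt H p' z → lt H q' z → Comp H p' q') := by
  have hwf : WellFounded (TransGen H.Adj) := by
    have : IsTrans V (TransGen H.Adj) := ⟨fun _ _ _ => TransGen.trans⟩
    have : Std.Irrefl (TransGen H.Adj) := ⟨hac⟩
    exact Finite.wellFounded_of_trans_of_irrefl _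
  have hwf' : WellFounded (fun a b => TransGen H.Adj b a) := by
    have : IsTrans V (fun a b => TransGen H.Adj b a) := ⟨fun _ _ _ h1 h2 => h2.trans h1⟩
    have : Std.Irrefl (fun a b => TransGen H.Adj b a) := ⟨hac⟩
    exact Finite.wellFounded_of_trans_of_irrefl _
  have hpx : p₀ ≠ x := by
    rintro rfl
    by_cases hq : q₀ = p₀
    · exact hpq (Or.inl hq.symm)
    · exact hpq (Or.inr (Or.inl (h.source_lt hq)))
  have hqx : q₀ ≠ x := by
    rintro rfl
    exact hpq (Or.inr (Or.inr (h.source_lt hpx)))
  have hpy : p₀ ≠ y := by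
    rintro rfl
    by_cases hq : q₀ = p₀
    · exact hpq (Or.inl hq.symm)
    · exact hpq (Or.inr (Or.inr (h.lt_sink hq)))
  have hqy : q₀ ≠ y := by
    rintro rfl
    exact hpq (Or.inr (Or.inl (h.lt_sink hpy)))
  obtain ⟨a, ⟨p₁, q₁, ha1, ha2, ha3⟩, hamax⟩ := hwf'.has_min
    {a | ∃ p q, lt H a p ∧ lt H a q ∧ ¬ Comp H p q}
    ⟨x, p₀, q₀, h.source_lt hpx, h.source_lt hqx, hpq⟩
  have hb1 : p₁ ≠ y := by
    rintro rfl
    by_cases hq : q₁ = p₁
    · exact ha3 (Or.inl hq.symm)
    · exact ha3 (Or.inr (Or.inr (h.lt_sink hq)))
  have hb2 : q₁ ≠ y := by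
    rintro rfl
    exact ha3 (Or.inr (Or.inl (h.lt_sink hb1)))
  obtain ⟨b, ⟨p, q, e1, e2, e3, e4, e5⟩, hbmin⟩ := hwf.has_min
    {b | ∃ p q, lt H a p ∧ lt H a q ∧ lt H p b ∧ lt H q b ∧ ¬ Comp H p q}
    ⟨y, p₁, q₁, ha1, ha2, h.lt_sink hb1, h.lt_sink hb2, ha3⟩
  refine ⟨a, b, p, q, e1, e2, e3, e4, e5, ?_, ?_⟩
  · intro p' q' z hz h1 h2
    by_contra hcon
    exact hamax z ⟨p', q', h1, h2, hcon⟩ hz
  · intro p' q' z hz h1 h2 h3 h4
    by_contra hcon
    exact hbmin z ⟨p', q', h1, h2, h3, h4, hcon⟩ hz

/-- The order of an inclusion-maximal bipolar subdigraph is total. -/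
theorem total_of_maximal [Finite V] (hD : PathMergeable D) (h : Bipolar D H x y)
    (hmax : ∀ H', Bipolar D H' x y → H ≤ H' → H' ≤ H) (p₀ q₀ : V) : Comp H p₀ q₀ := by
  classical
  by_contra hpq
  have hac := h.acyclic
  obtain ⟨a, b, p, q, hap, haq, hpb, hqb, hinc, hup, hdn⟩ := exists_diamond hac h hpq
  -- no vertex of the open interval is comparable with both
  have noBoth : ∀ z, lt H a z → lt H z b → Comp H z p → Comp H z q → False := by
    intro z haz hzb h1 h2
    rcases h1 with rfl | h1 | h1
    · exact hinc h2
    · rcases h2 with rfl | h2 | h2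
      · exact hinc (Or.inr (Or.inr h1))
      · exact hinc (hup p q z haz h1 h2)
      · exact hinc (Or.inr (Or.inr (h2.trans h1)))
    · rcases h2 with rfl | h2 | h2
      · exact hinc (Or.inr (Or.inl h1))
      · exact hinc (Or.inr (Or.inl (h1.trans h2)))
      · exact hinc (hdn p q z hzb hap haq h1 h2)
  -- no relation between the two sides
  have noRel : ∀ z w, lt H a z → lt H z b → lt H a w → lt H w b → Comp H z p → Comp H w q →
      ¬ Comp H z w := by
    have key : ∀ z w, lt H a z → lt H z b → lt H a w → lt H w b → ∀ p q : V, lt H a p → lt H a q →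
        (∀ z, lt H a z → lt H z b → Comp H z p → Comp H z q → False) →
        Comp H z p → Comp H w q → ¬ lt H z w := by
      intro z w haz hzb haw hwb p q hap haq noB hz hw hzw
      rcases hw with rfl | hw | hw
      · exact noB z haz hzb hz (Or.inr (Or.inl hzw))
      · exact noB z haz hzb hz (Or.inr (Or.inl (hzw.trans hw)))
      · have hc : Comp H z q := hdn z q w hwb haz haq hzw hw
        exact noB z haz hzb hz hc
    intro z w haz hzb haw hwb hz hw hzw
    rcases hzw with rfl | hzw | hzw
    · exact noBoth z haz hzb hz hw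
    · exact key z w haz hzb haw hwb p q hap haq noBoth hz hw hzw
    · exact key w z haw hwb haz hzb q p haq hap
        (fun z h1 h2 h3 h4 => noBoth z h1 h2 h4 h3) hw hz hzw
  obtain ⟨P₁, cP₁⟩ := trans_chain hap
  obtain ⟨P₂, cP₂⟩ := trans_chain hpb
  obtain ⟨Q₁, cQ₁⟩ := trans_chain haq
  obtain ⟨Q₂, cQ₂⟩ := trans_chain hqb
  have glue : ∀ {c : V} {L₁ L₂ : List V}, (a :: (L₁ ++ [c])).IsChain H.Adj →
      (c :: (L₂ ++ [b])).IsChain H.Adj → (a :: ((L₁ ++ c :: L₂) ++ [b])).IsChain H.Adj := by
    intro c L₁ L₂ h1 h2
    have e : a :: ((L₁ ++ c :: L₂) ++ [b]) = (a :: L₁) ++ c :: (L₂ ++ [b]) := by simp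
    rw [e, List.isChain_split]
    exact ⟨by simpa using h1, h2⟩
  have cX := glue cP₁ cP₂
  have cY := glue cQ₁ cQ₂
  obtain ⟨X, hXdef⟩ : ∃ X, X = P₁ ++ p :: P₂ := ⟨_, rfl⟩
  obtain ⟨Y, hYdef⟩ : ∃ Y, Y = Q₁ ++ q :: Q₂ := ⟨_, rfl⟩
  rw [← hXdef] at cX
  rw [← hYdef] at cY
  have pX := chain_pairwise cX
  have pY := chain_pairwise cY
  have hpX : p ∈ X := by rw [hXdef]; simp
  have hqY : q ∈ Y := by rw [hYdef]; simp
  have inX : ∀ z ∈ X, lt H a z ∧ lt H z b ∧ Comp H z p := by
    intro z hz
    rw [List.pairwise_cons] at pX
    have h1 : lt H a z := pX.1 z (by simp [hz])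
    have h2 : lt H z b := (List.pairwise_append.mp pX.2).2.2 z hz b (by simp)
    refine ⟨h1, h2, ?_⟩
    by_cases hzp : z = p
    · exact Or.inl hzp
    · rcases pairwise_cases (List.pairwise_append.mp pX.2).1 hz hpX hzp with h3 | h3
      · exact Or.inr (Or.inl h3.2)
      · exact Or.inr (Or.inr h3.2)
  have inY : ∀ z ∈ Y, lt H a z ∧ lt H z b ∧ Comp H z q := by
    intro z hz
    rw [List.pairwise_cons] at pY
    have h1 : lt H a z := pY.1 z (by simp [hz])
    have h2 : lt H z b := (List.pairwise_append.mp pY.2).2.2 z hz b (by simp)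
    refine ⟨h1, h2, ?_⟩
    by_cases hzp : z = q
    · exact Or.inl hzp
    · rcases pairwise_cases (List.pairwise_append.mp pY.2).1 hz hqY hzp with h3 | h3
      · exact Or.inr (Or.inl h3.2)
      · exact Or.inr (Or.inr h3.2)
  have hrel : ∀ z ∈ X, ∀ w ∈ Y, ¬ Comp H z w := fun z hz w hw =>
    noRel z w (inX z hz).1 (inX z hz).2.1 (inY w hw).1 (inY w hw).2.1 (inX z hz).2.2 (inY w hw).2.2
  have hab : lt H a b := hap.trans hpb
  have pXX : X.Pairwise (lt H) := (List.pairwise_append.mp (List.pairwise_cons.mp pX).2).1
  have pYY : Y.Pairwise (lt H) := (List.pairwise_append.mp (List.pairwise_cons.mp pY).2).1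
  have nd : (a :: b :: (X ++ Y)).Nodup := by
    rw [List.nodup_cons, List.nodup_cons]
    refine ⟨?_, ?_, ?_⟩
    · simp only [List.mem_cons, List.mem_append, not_or]
      refine ⟨?_, ?_, ?_⟩
      · rintro rfl; exact hac _ hab
      · intro hh; exact hac _ (inX a hh).1
      · intro hh; exact hac _ (inY a hh).1
    · simp only [List.mem_append, not_or]
      exact ⟨fun hh => hac _ (inX b hh).2.1, fun hh => hac _ (inY b hh).2.1⟩
    · rw [List.nodup_append]
      refine ⟨pairwise_nodup hac pXX, pairwise_nodup hac pYY, ?_⟩
      rintro z hz w hw rfl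
      exact hrel z hz z hw (Or.inl rfl)
  have hle : ∀ {u v : V}, H.Adj u v → D.Adj u v := fun {u v} huv => h.le huv
  obtain ⟨M, cM, permM, subX, subY⟩ := hD.merge _ a b X Y rfl (cX.imp (fun _ _ => hle))
    (cY.imp (fun _ _ => hle)) nd
  -- the merged path
  obtain ⟨N, hN⟩ : ∃ N, N = a :: (M ++ [b]) := ⟨_, rfl⟩
  have memM : ∀ z, z ∈ M ↔ z ∈ X ∨ z ∈ Y := fun z => by
    rw [permM.mem_iff, List.mem_append]
  have ndN : N.Nodup := by
    have h1 : N.Perm (a :: b :: (X ++ Y)) := by
      rw [hN]
      exact List.Perm.cons _ ((List.perm_append_singleton b M).trans (List.Perm.cons _ permM))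
    exact h1.nodup_iff.mpr nd
  have aboveA : ∀ z ∈ M ++ [b], lt H a z := by
    intro z hz
    rcases List.mem_append.mp hz with hz | hz
    · rcases (memM z).mp hz with hz | hz
      · exact (inX z hz).1
      · exact (inY z hz).1
    · rw [List.mem_singleton] at hz; rw [hz]; exact hab
  have belowB : ∀ z ∈ a :: M, lt H z b := by
    intro z hz
    rcases List.mem_cons.mp hz with hz | hz
    · rw [hz]; exact hab
    · rcases (memM z).mp hz with hz | hz
      · exact (inX z hz).2.1
      · exact (inY z hz).2.1
  have memN : ∀ z, z ∈ N ↔ z = a ∨ z ∈ M ∨ z = b := by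
    intro z; rw [hN]; simp
  -- the order of `N` extends that of `H`
  have K : ∀ m n, m ∈ N → n ∈ N → lt H m n → N.idxOf m < N.idxOf n := by
    intro m n hm hn hmn
    apply idx_lt ndN
    rcases (memN m).mp hm with rfl | hm | rfl
    · -- `m = a`
      have hn' : n ∈ M ++ [b] := by
        rcases (memN n).mp hn with rfl | hn | rfl
        · exact absurd hmn (hac _)
        · simp [hn]
        · simp
      rw [hN]
      exact List.Sublist.cons_cons _ (List.singleton_sublist.mpr hn')
    · rcases (memN n).mp hn with rfl | hn | rfl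
      · exact absurd ((aboveA m (by simp [hm])).trans hmn) (hac _)
      · have hsub : [m, n].Sublist M := by
          have hne : m ≠ n := by rintro rfl; exact hac _ hmn
          rcases (memM m).mp hm with h1 | h1 <;> rcases (memM n).mp hn with h2 | h2
          · rcases pairwise_cases pXX h1 h2 hne with h3 | h3
            · exact h3.1.trans subX
            · exact absurd (hmn.trans h3.2) (hac _)
          · exact absurd (Or.inr (Or.inl hmn)) (hrel m h1 n h2)
          · exact absurd (Or.inr (Or.inr hmn)) (hrel n h2 m h1)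
          · rcases pairwise_cases pYY h1 h2 hne with h3 | h3
            · exact h3.1.trans subY
            · exact absurd (hmn.trans h3.2) (hac _)
        rw [hN]
        exact (hsub.trans (List.sublist_append_left _ _)).cons _
      · have h1 : [m, n] = [m] ++ [n] := rfl
        rw [hN, ← List.cons_append, h1]
        exact List.Sublist.append (List.singleton_sublist.mpr (by simp [hm]))
          (List.Sublist.refl _)
    · -- `m = b`
      rcases (memN n).mp hn with rfl | hn | rfl
      · exact absurd (hab.trans hmn) (hac _)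
      · exact absurd (hmn.trans (belowB n (by simp [hn]))) (hac _)
      · exact absurd hmn (hac _)
  -- the new subdigraph
  let H' : Digraph V := ⟨fun u v => H.Adj u v ∨ [u, v] <:+: N⟩
  let le (u v : V) : Prop := u = v ∨ lt H u v
  have lele : ∀ {u v w : V}, le u v → le v w → le u w := by
    rintro u v w (rfl | h1) (rfl | h2)
    · exact Or.inl rfl
    · exact Or.inr h2
    · exact Or.inr h1
    · exact Or.inr (h1.trans h2)
  let R (u v : V) : Prop := lt H u v ∨
    ∃ m n, m ∈ N ∧ n ∈ N ∧ N.idxOf m < N.idxOf n ∧ le u m ∧ le n v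
  have Ktwo : ∀ m n, m ∈ N → n ∈ N → le m n → N.idxOf m ≤ N.idxOf n := by
    rintro m n hm hn (rfl | h1)
    · exact le_refl _
    · exact (K m n hm hn h1).le
  have Rtrans : ∀ u v w, R u v → R v w → R u w := by
    rintro u v w (h1 | ⟨m, n, hm, hn, hmn, hum, hnv⟩) (h2 | ⟨m', n', hm', hn', hmn', hum', hnv'⟩)
    · exact Or.inl (h1.trans h2)
    · exact Or.inr ⟨m', n', hm', hn', hmn', lele (Or.inr h1) hum', hnv'⟩
    · exact Or.inr ⟨m, n, hm, hn, hmn, hum, lele hnv (Or.inr h2)⟩
    · refine Or.inr ⟨m, n', hm, hn', ?_, hum, hnv'⟩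
      have := Ktwo n m' hn hm' (lele hnv hum')
      omega
  have Rirr : ∀ u, ¬ R u u := by
    rintro u (h1 | ⟨m, n, hm, hn, hmn, hum, hnv⟩)
    · exact hac _ h1
    · have := Ktwo n m hn hm (lele hnv hum)
      omega
  have HR : ∀ u v, TransGen H'.Adj u v → R u v := by
    have base : ∀ u v, H'.Adj u v → R u v := by
      rintro u v (h1 | h1)
      · exact Or.inl (TransGen.single h1)
      · refine Or.inr ⟨u, v, h1.subset (by simp), h1.subset (by simp), idx_lt ndN h1.sublist,
          Or.inl rfl, Or.inl rfl⟩
    intro u v huv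
    induction huv with
    | single h1 => exact base _ _ h1
    | tail _ h2 ih => exact Rtrans _ _ _ ih (base _ _ h2)
  have inH : ∀ v, lt H a v → ∃ u, H.Adj u v := by
    intro v hv
    obtain ⟨c, -, hc⟩ := TransGen.tail'_iff.mp hv
    exact ⟨c, hc⟩
  have outH : ∀ v, lt H v b → ∃ u, H.Adj v u := by
    intro v hv
    obtain ⟨c, hc, -⟩ := TransGen.head'_iff.mp hv
    exact ⟨c, hc⟩
  have infTail : ∀ u v, [u, v] <:+: N → v ∈ M ++ [b] := by
    intro u v huv
    obtain ⟨s, t, hst⟩ := huv
    rw [hN] at hst
    cases s with
    | nil =>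
      simp only [List.nil_append, List.cons_append, List.cons.injEq] at hst
      rw [← hst.2]; simp
    | cons c s' =>
      simp only [List.cons_append, List.cons.injEq] at hst
      rw [← hst.2]; simp
  have infInit : ∀ u v, [u, v] <:+: N → u ∈ a :: M := by
    intro u v huv
    obtain ⟨s, t, hst⟩ := huv
    rw [hN, ← List.cons_append] at hst
    rcases List.eq_nil_or_concat t with rfl | ⟨t', c, rfl⟩
    · have h1 : (s ++ [u]) ++ [v] = (a :: M) ++ [b] := by simpa using hst
      have h2 := List.append_inj' h1 rfl
      rw [← h2.1]; simp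
    · have h1 : (s ++ [u, v] ++ t') ++ [c] = (a :: M) ++ [b] := by
        rw [← hst]; simp
      have h2 := List.append_inj' h1 rfl
      rw [← h2.1]; simp
  have hB : Bipolar D H' x y := by
    refine ⟨?_, ?_, ?_, ?_⟩
    · intro u v huv
      rcases huv with h1 | h1
      · exact h.le h1
      · rw [← hN] at cM
        exact rel_of_consecutive cM h1
    · intro v hv
      exact Rirr v (HR v v hv)
    · intro v
      rw [← h.source v]
      constructor
      · intro h1 u hu
        exact h1 u (Or.inl hu)
      · intro h1 u hu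
        rcases hu with h2 | h2
        · exact h1 u h2
        · obtain ⟨c, hc⟩ := inH v (aboveA v (infTail u v h2))
          exact h1 c hc
    · intro v
      rw [← h.sink v]
      constructor
      · intro h1 u hu
        exact h1 u (Or.inl hu)
      · intro h1 u hu
        rcases hu with h2 | h2
        · exact h1 u h2
        · obtain ⟨c, hc⟩ := outH v (belowB v (infInit v u h2))
          exact h1 c hc
  have hle2 : H' ≤ H := hmax H' hB (fun _ _ h1 => Or.inl h1)
  have cN : N.IsChain H.Adj := by
    have h1 : N.IsChain (fun x y => [x, y] <:+: N) := List.isChain_isInfix N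
    exact h1.imp (fun u v huv => hle2 (Or.inr huv))
  have hpN : p ∈ N := (memN p).mpr (Or.inr (Or.inl ((memM p).mpr (Or.inl hpX))))
  have hqN : q ∈ N := (memN q).mpr (Or.inr (Or.inl ((memM q).mpr (Or.inr hqY))))
  have hne : p ≠ q := by rintro rfl; exact hinc (Or.inl rfl)
  rcases pairwise_cases (chain_pairwise cN) hpN hqN hne with h1 | h1
  · exact hinc (Or.inr (Or.inl h1.2))
  · exact hinc (Or.inr (Or.inr h1.2))

end Step

section Ham

variable {D H : Digraph V} {x y : V}

/-- Every finite set of vertices can be listed increasingly when the order of `H` is total. -/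
theorem exists_sorted (ht : ∀ p q, Comp H p q) (s : Finset V) :
    ∃ l : List V, l.Pairwise (lt H) ∧ ∀ v, v ∈ l ↔ v ∈ s := by
  classical
  induction s using Finset.induction_on with
  | empty => exact ⟨[], by simp, by simp⟩
  | insert v s hv ih =>
    obtain ⟨l, hl, hm⟩ := ih
    refine ⟨l.filter (fun w => lt H w v) ++ v :: l.filter (fun w => lt H v w), ?_, ?_⟩
    · rw [List.pairwise_append, List.pairwise_cons]
      refine ⟨hl.filter _, ⟨?_, hl.filter _⟩, ?_⟩
      · intro w hw
        rw [List.mem_filter] at hw
        simpa using hw.2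
      · intro w hw z hz
        rw [List.mem_filter] at hw
        have h1 : lt H w v := by simpa using hw.2
        rcases List.mem_cons.mp hz with rfl | hz
        · exact h1
        · rw [List.mem_filter] at hz
          have h2 : lt H v z := by simpa using hz.2
          exact h1.trans h2
    · intro w
      simp only [List.mem_append, List.mem_cons, List.mem_filter, decide_eq_true_eq, hm,
        Finset.mem_insert]
      constructor
      · rintro (h | h | h)
        · exact Or.inr h.1
        · exact Or.inl h
        · exact Or.inr h.1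
      · rintro (h | h)
        · exact Or.inr (Or.inl h)
        · rcases ht w v with h1 | h1 | h1
          · exact Or.inr (Or.inl h1)
          · exact Or.inl ⟨h, h1⟩
          · exact Or.inr (Or.inr ⟨h, h1⟩)

/-- A bipolar subdigraph with total order gives a hamiltonian path. -/
theorem ham_of_total [Finite V] (h : Bipolar D H x y) (ht : ∀ p q, Comp H p q) :
    ∃ l : List V, IsPath D x y l ∧ ∀ v, v ∈ l := by
  classical
  have := Fintype.ofFinite V
  have hac := h.acyclic
  obtain ⟨l, hl, hm⟩ := exists_sorted ht (Finset.univ : Finset V)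
  have hmem : ∀ v, v ∈ l := fun v => (hm v).mpr (Finset.mem_univ v)
  have hchain : l.IsChain H.Adj := by
    rw [List.isChain_iff_forall_rel_of_append_cons_cons]
    intro a b l₁ l₂ hlist
    rw [hlist, List.pairwise_append] at hl
    obtain ⟨-, h2, h3⟩ := hl
    rw [List.pairwise_cons, List.pairwise_cons] at h2
    have hab : lt H a b := h2.1 b (by simp)
    obtain ⟨c, hac', hcb⟩ := TransGen.head'_iff.mp hab
    have hc := hmem c
    rw [hlist] at hc
    have hac2 : lt H a c := TransGen.single hac'
    rcases List.mem_append.mp hc with hc | hc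
    · exact absurd (hac2.trans (h3 c hc a (by simp))) (hac _)
    · rcases List.mem_cons.mp hc with rfl | hc
      · exact absurd hac2 (hac _)
      · rcases List.mem_cons.mp hc with rfl | hc
        · exact hac'
        · have hbc : lt H b c := h2.2.1 c hc
          rcases Relation.reflTransGen_iff_eq_or_transGen.mp hcb with rfl | hcb
          · exact hac'
          · exact absurd (hbc.trans hcb) (hac _)
  refine ⟨l, ⟨hchain.imp (fun _ _ huv => h.le huv), pairwise_nodup hac hl, ?_, ?_⟩, hmem⟩
  · cases l with
    | nil => exact absurd (hmem x) (by simp)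
    | cons c t =>
      rw [List.pairwise_cons] at hl
      have : c = x := by
        by_contra hcx
        have hxc : lt H x c := h.source_lt hcx
        rcases List.mem_cons.mp (hmem x) with h1 | h1
        · exact hcx h1.symm
        · exact hac _ (hxc.trans (hl.1 x h1))
      simp [this]
  · rcases List.eq_nil_or_concat l with rfl | ⟨t, c, rfl⟩
    · exact absurd (hmem x) (by simp)
    · have : c = y := by
        by_contra hcy
        have hcy' : lt H c y := h.lt_sink hcy
        rw [List.concat_eq_append] at hl hmem
        rcases List.mem_append.mp (hmem y) with h1 | h1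
        · exact hac _ (hcy'.trans ((List.pairwise_append.mp hl).2.2 y h1 c (by simp)))
        · exact hcy (List.mem_singleton.mp h1).symm
      simp [this]

/-- A hamiltonian path is a bipolar subdigraph. -/
theorem bipolar_of_ham {l : List V} (hl : IsPath D x y l) (hmem : ∀ v, v ∈ l) :
    ∃ H, Bipolar D H x y := by
  classical
  obtain ⟨hc, hn, hx, hy⟩ := hl
  have hidx : ∀ u v, TransGen (fun u v => [u, v] <:+: l) u v → l.idxOf u < l.idxOf v := by
    intro u v huv
    induction huv with
    | single h1 => exact idx_lt hn h1.sublist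
    | tail _ h2 ih => exact ih.trans (idx_lt hn h2.sublist)
  refine ⟨⟨fun u v => [u, v] <:+: l⟩, ?_, ?_, ?_, ?_⟩
  · intro u v huv
    exact rel_of_consecutive hc huv
  · intro v hv
    exact absurd (hidx v v hv) (lt_irrefl _)
  · intro v
    constructor
    · intro h1
      by_contra hvx
      obtain ⟨s, t, hst⟩ := List.append_of_mem (hmem v)
      rcases List.eq_nil_or_concat s with rfl | ⟨s', c, rfl⟩
      · rw [hst] at hx; simp at hx; exact hvx hx
      · refine h1 c ⟨s', t, ?_⟩
        rw [hst]; simp
    · rintro rfl u hu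
      have h1 := hidx u v (TransGen.single hu)
      have h2 : l.idxOf v = 0 := by
        cases l with
        | nil => simp at hx
        | cons c t =>
          simp only [List.head?_cons, Option.some.injEq] at hx
          rw [hx]; simp
      omega
  · intro v
    constructor
    · intro h1
      by_contra hvy
      obtain ⟨s, t, hst⟩ := List.append_of_mem (hmem v)
      cases t with
      | nil => rw [hst] at hy; simp at hy; exact hvy hy
      | cons c t' =>
        refine h1 c ⟨s, t', ?_⟩
        rw [hst]; simp
    · rintro rfl u hu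
      obtain ⟨s, t, hst⟩ := hu
      rcases List.eq_nil_or_concat t with rfl | ⟨t', c, rfl⟩
      · have h2 : l = (s ++ [v]) ++ [u] := by rw [← hst]; simp
        rw [h2] at hy hn
        simp only [List.getLast?_append, List.getLast?_singleton, Option.some_or,
          Option.some.injEq] at hy
        subst hy
        have := (List.nodup_append.mp hn).2.2 u (by simp) u (by simp)
        exact this rfl
      · have h2 : l = (s ++ [v, u] ++ t') ++ [c] := by rw [← hst]; simp
        rw [h2] at hy hn
        simp only [List.getLast?_append, List.getLast?_singleton, Option.some_or,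
          Option.some.injEq] at hy
        subst hy
        have := (List.nodup_append.mp hn).2.2 c (by simp) c (by simp)
        exact this rfl

theorem exists_bipolar_iff_ham [Finite V] (hD : PathMergeable D) (x y : V) :
    (∃ l : List V, IsPath D x y l ∧ ∀ v, v ∈ l) ↔ ∃ H, Bipolar D H x y := by
  constructor
  · rintro ⟨l, hl, hm⟩
    exact bipolar_of_ham hl hm
  · intro hne
    have hfin : Finite (Digraph V) := by
      have hinj : Function.Injective (fun G : Digraph V => G.Adj) := Digraph.adj_injective
      exact Finite.of_injective _ hinj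
    obtain ⟨H, hH, hmax⟩ := (Set.toFinite {H | Bipolar D H x y}).exists_maximal hne
    exact ham_of_total hH (total_of_maximal hD hH (fun H' h1 h2 => hmax h1 h2))

/-- `l` lists all vertices without repetition so that every vertex other than `x` has an
in-neighbour earlier in `l` and every vertex other than `y` has an out-neighbour later in `l`. -/
structure GoodOrder (D : Digraph V) (x y : V) (l : List V) : Prop where
  nodup : l.Nodup
  mem : ∀ v : V, v ∈ l
  earlier : ∀ v : V, v ≠ x → ∃ u : V, D.Adj u v ∧ [u, v].Sublist l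
  later : ∀ v : V, v ≠ y → ∃ w : V, D.Adj v w ∧ [v, w].Sublist l

theorem goodOrder_of_ham {l : List V} (hl : IsPath D x y l) (hmem : ∀ v, v ∈ l) :
    GoodOrder D x y l := by
  obtain ⟨hc, hn, hx, hy⟩ := hl
  have adj : ∀ u v, [u, v] <:+: l → D.Adj u v := by
    intro u v huv
    exact rel_of_consecutive hc huv
  refine ⟨hn, hmem, ?_, ?_⟩
  · intro v hvx
    obtain ⟨s, t, hst⟩ := List.append_of_mem (hmem v)
    rcases List.eq_nil_or_concat s with rfl | ⟨s', c, rfl⟩
    · rw [hst] at hx; simp at hx; exact absurd hx hvx
    · have h1 : [c, v] <:+: l := ⟨s', t, by rw [hst]; simp⟩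
      exact ⟨c, adj _ _ h1, h1.sublist⟩
  · intro v hvy
    obtain ⟨s, t, hst⟩ := List.append_of_mem (hmem v)
    cases t with
    | nil => rw [hst] at hy; simp at hy; exact absurd hy hvy
    | cons c t' =>
      have h1 : [v, c] <:+: l := ⟨s, t', by rw [hst]; simp⟩
      exact ⟨c, adj _ _ h1, h1.sublist⟩

theorem bipolar_of_goodOrder {l : List V} (h : GoodOrder D x y l) :
    ∃ H, Bipolar D H x y := by
  classical
  have hidx : ∀ u v, TransGen (fun u v => D.Adj u v ∧ [u, v].Sublist l) u v →
      l.idxOf u < l.idxOf v := by
    intro u v huv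
    induction huv with
    | single h1 => exact idx_lt h.nodup h1.2
    | tail _ h2 ih => exact ih.trans (idx_lt h.nodup h2.2)
  refine ⟨⟨fun u v => D.Adj u v ∧ [u, v].Sublist l⟩, ?_, ?_, ?_, ?_⟩
  · intro u v huv
    exact huv.1
  · intro v hv
    exact absurd (hidx v v hv) (lt_irrefl _)
  · intro v
    constructor
    · intro h1
      by_contra hvx
      obtain ⟨u, hu⟩ := h.earlier v hvx
      exact h1 u hu
    · rintro rfl
      -- the first vertex of `l` has no earlier in-neighbour, hence it is `x`
      cases hl : l with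
      | nil => have := h.mem v; rw [hl] at this; simp at this
      | cons c t =>
        have hcv : c = v := by
          by_contra hcv
          obtain ⟨u, -, hu⟩ := h.earlier c hcv
          have h2 := idx_lt h.nodup hu
          rw [hl] at h2
          simp at h2
        rintro u ⟨-, hu⟩
        rw [← hl] at hu
        have h2 := idx_lt h.nodup hu
        rw [hl, ← hcv] at h2
        simp at h2
  · intro v
    constructor
    · intro h1
      by_contra hvx
      obtain ⟨u, hu⟩ := h.later v hvx
      exact h1 u hu
    · rintro rfl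
      rcases List.eq_nil_or_concat l with hl | ⟨t, c, hl⟩
      · have := h.mem v; rw [hl] at this; simp at this
      · have last : ∀ u, [c, u].Sublist l → False := by
          intro u hu
          have hlt := idx_lt h.nodup hu
          have hnd := h.nodup
          rw [hl, List.concat_eq_append] at hlt hnd
          have hct : c ∉ t := by
            intro hc
            exact (List.nodup_append.mp hnd).2.2 c hc c (by simp) rfl
          have e1 : (t ++ [c]).idxOf c = t.length := by
            rw [List.idxOf_append_of_notMem hct]; simp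
          have e2 : (t ++ [c]).idxOf u ≤ t.length := by
            have hu' : u ∈ t ++ [c] := by
              have := h.mem u; rwa [hl, List.concat_eq_append] at this
            have := List.idxOf_lt_length_of_mem hu'
            simp at this
            omega
          omega
        have hcv : c = v := by
          by_contra hcv
          obtain ⟨u, -, hu⟩ := h.later c hcv
          exact last u hu
        rintro u ⟨-, hu⟩
        rw [← hcv] at hu
        exact last u hu

theorem exists_goodOrder_iff_ham [Finite V] (hD : PathMergeable D) (x y : V) :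
    (∃ l : List V, IsPath D x y l ∧ ∀ v, v ∈ l) ↔ ∃ l, GoodOrder D x y l := by
  constructor
  · rintro ⟨l, hl, hm⟩
    exact ⟨l, goodOrder_of_ham hl hm⟩
  · rintro ⟨l, hl⟩
    exact (exists_bipolar_iff_ham hD x y).mpr (bipolar_of_goodOrder hl)

end Ham

end Run7.h514
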